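import Pool.Agent.W544.K3.Defs

/-!
# (GRADE): an `ad x`-stable space of operators is spanned by its homogeneous elements
-/

set_option autoImplicit false

open Module Finset

namespace Pool.Agent.V5helper19.DRB

open Pool.Agent.W544.K3

theorem ad_diag (U : Type) [AddCommGroup U] [Module ℝ U] [FiniteDimensional ℝ U]
    (x : End ℝ U) (hx : Diag x) :
    ⨆ α : ℝ, End.eigenspace (LinearMap.mulLeft ℝ x - LinearMap.mulRight ℝ x) α = ⊤ := by
  classical
  have hint : DirectSum.IsInternal (fun μ : ℝ => End.eigenspace x μ) := by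
    rw [DirectSum.isInternal_submodule_iff_iSupIndep_and_iSup_eq_top]
    exact ⟨End.eigenspaces_iSupIndep x, hx⟩
  let b := hint.collectedBasis (fun μ => Module.finBasis ℝ (End.eigenspace x μ))
  have hb : ∀ a, x (b a) = a.1 • b a := by
    intro a
    have := hint.collectedBasis_mem (fun μ => Module.finBasis ℝ (End.eigenspace x μ)) a
    exact End.mem_eigenspace_iff.1 this
  have : Finite (Σ μ : ℝ, Fin (finrank ℝ (End.eigenspace x μ))) := Module.Finite.finite_basis b
  have : Fintype (Σ μ : ℝ, Fin (finrank ℝ (End.eigenspace x μ))) := Fintype.ofFinite _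
  have hco : ∀ j u, b.coord j (x u) = j.1 * b.coord j u := by
    intro j u
    have h1 : (b.coord j).comp x = j.1 • b.coord j := by
      refine b.ext fun i => ?_
      simp only [LinearMap.comp_apply, hb, map_smul, LinearMap.smul_apply, smul_eq_mul,
        Module.Basis.coord_apply, Module.Basis.repr_self]
      by_cases hij : i = j
      · subst hij; rfl
      · rw [Finsupp.single_eq_of_ne' hij]; simp
    have := LinearMap.congr_fun h1 u
    simpa using this
  rw [eq_top_iff]
  intro y _
  have hy : y = ∑ j, (b.coord j).smulRight (y (b j)) := by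
    refine b.ext fun i => ?_
    rw [LinearMap.sum_apply]
    simp only [LinearMap.smulRight_apply, Module.Basis.coord_apply, Module.Basis.repr_self]
    rw [Finset.sum_eq_single i]
    · simp
    · intro j _ hij
      rw [Finsupp.single_eq_of_ne hij]; simp
    · simp
  have hy2 : ∀ j, (b.coord j).smulRight (y (b j)) =
      ∑ i, (b.repr (y (b j)) i) • (b.coord j).smulRight (b i) := by
    intro j
    refine LinearMap.ext fun u => ?_
    rw [LinearMap.sum_apply]
    simp only [LinearMap.smulRight_apply, LinearMap.smul_apply]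
    conv_lhs => rw [← b.sum_repr (y (b j)), Finset.smul_sum]
    exact Finset.sum_congr rfl fun i _ => smul_comm _ _ _
  rw [hy]
  refine Submodule.sum_mem _ fun j _ => ?_
  rw [hy2 j]
  refine Submodule.sum_mem _ fun i _ => Submodule.smul_mem _ _ ?_
  refine Submodule.mem_iSup_of_mem (i.1 - j.1) ?_
  rw [End.mem_eigenspace_iff]
  refine LinearMap.ext fun u => ?_
  simp only [LinearMap.sub_apply, LinearMap.mulLeft_apply, LinearMap.mulRight_apply,
    Module.End.mul_apply, LinearMap.smulRight_apply, LinearMap.smul_apply, map_smul, hb, hco,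
    smul_smul, ← sub_smul]
  congr 1
  ring

theorem grade_aux {U : Type} [AddCommGroup U] [Module ℝ U] [FiniteDimensional ℝ U]
    (T : End ℝ U) (h p : Submodule ℝ U) (h1 : ⨆ α : ℝ, End.eigenspace T α = ⊤)
    (hst : ∀ y ∈ h, T y ∈ h) (hp : ∀ α : ℝ, ∀ y ∈ h, T y = α • y → y ∈ p) : h ≤ p := by
  have h2 := Submodule.eq_iSup_inf_genEigenspace (p := h) (f := T) 1 hst h1
  rw [h2]
  refine iSup_le fun α y hy => ?_
  obtain ⟨hy1, hy2⟩ := hy
  exact hp α y hy1 (End.mem_eigenspace_iff.1 hy2)

theorem t_GRADE : S_grade := by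
  intro U _ _ _ x h p hx hst hp
  exact grade_aux (LinearMap.mulLeft ℝ x - LinearMap.mulRight ℝ x) h p (ad_diag U x hx)
    (fun y hy => hst y hy) (fun α y hy h1 => hp α y hy h1)

end Pool.Agent.V5helper19.DRB
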