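import Pool.Agent.V5helper19.DRB.GRADE

/-!
# (CLOS): a complex subspace containing a highest vector space and stable under the nonpositive
part is everything
-/

set_option autoImplicit false

open Module Finset

namespace Pool.Agent.V5helper19.DRB

open Pool.Agent.W544.K3

/-- the diagonal action of `y` on `U × U` -/
def dbl {U : Type} [AddCommGroup U] [Module ℝ U] (y : End ℝ U) : End ℝ (U × U) :=
  LinearMap.prodMap y y

theorem dbl_apply {U : Type} [AddCommGroup U] [Module ℝ U] (y : End ℝ U) (p : U × U) :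
    dbl y p = (y p.1, y p.2) := rfl

/-- the complex structure of `U × U` -/
def jj (U : Type) [AddCommGroup U] [Module ℝ U] : End ℝ (U × U) :=
  (-LinearMap.snd ℝ U U).prod (LinearMap.fst ℝ U U)

theorem jj_apply {U : Type} [AddCommGroup U] [Module ℝ U] (p : U × U) :
    jj U p = (-p.2, p.1) := rfl

theorem jj_dbl {U : Type} [AddCommGroup U] [Module ℝ U] (y : End ℝ U) (p : U × U) :
    dbl y (jj U p) = jj U (dbl y p) := by
  simp [jj_apply, dbl_apply]

theorem t_CLOS (hG : S_grade) : S_clos := by
  intro U _ _ _ x h hx hxh hlie hirr L M hL hM hLM hL0 hpos hneg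
  -- the family of admissible subspaces
  let F : Set (Submodule ℝ (U × U)) := {N | L ≤ N ∧ (∀ p ∈ N, jj U p ∈ N) ∧
    ∀ α : ℝ, α ≤ 0 → ∀ y ∈ h, Hom x α y → ∀ p ∈ N, dbl y p ∈ N}
  let N : Submodule ℝ (U × U) := sInf F
  have hMF : M ∈ F := ⟨hLM, hM, hneg⟩
  have hNF : N ∈ F := by
    refine ⟨le_sInf fun K hK => hK.1, fun p hp => ?_, fun α hα y hy hh p hp => ?_⟩
    · rw [Submodule.mem_sInf] at hp ⊢
      exact fun K hK => hK.2.1 p (hp K hK)
    · rw [Submodule.mem_sInf] at hp ⊢
      exact fun K hK => hK.2.2 α hα y hy hh p (hp K hK)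
  -- `N` is stable under positive elements
  let N' : Submodule ℝ (U × U) :=
    { carrier := {p | p ∈ N ∧ ∀ β : ℝ, 0 < β → ∀ z ∈ h, Hom x β z → dbl z p ∈ N}
      zero_mem' := ⟨N.zero_mem, fun β _ z _ _ => by rw [map_zero]; exact N.zero_mem⟩
      add_mem' := fun {p q} hp hq => ⟨N.add_mem hp.1 hq.1, fun β hβ z hz hh => by
        rw [map_add]
        exact N.add_mem (hp.2 β hβ z hz hh) (hq.2 β hβ z hz hh)⟩
      smul_mem' := fun c p hp => ⟨N.smul_mem c hp.1, fun β hβ z hz hh => by
        rw [map_smul]
        exact N.smul_mem c (hp.2 β hβ z hz hh)⟩ }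
  have hN' : N' ∈ F := by
    refine ⟨fun l hl => ⟨hNF.1 hl, fun β hβ z hz hh => ?_⟩, fun p hp => ⟨hNF.2.1 p hp.1,
      fun β hβ z hz hh => ?_⟩, fun α hα y hy hh p hp => ⟨hNF.2.2 α hα y hy hh p hp.1,
      fun β hβ z hz hz2 => ?_⟩⟩
    · obtain ⟨h1, h2⟩ := hpos β hβ z hz hh l hl
      rw [dbl_apply, h1, h2]
      exact N.zero_mem
    · rw [jj_dbl]
      exact hNF.2.1 _ (hp.2 β hβ z hz hh)
    · -- z y p = [z,y] p + y (z p)
      have hc : Hom x (β + α) (z * y - y * z) := by
        unfold Hom at hh hz2 ⊢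
        have e1 : x * z = β • z + z * x := by rw [← hz2]; abel
        have e2 : x * y = α • y + y * x := by rw [← hh]; abel
        calc x * (z * y - y * z) - (z * y - y * z) * x
            = (x * z) * y - (x * y) * z - (z * y) * x + (y * z) * x := by noncomm_ring
          _ = (β • z + z * x) * y - (α • y + y * x) * z - (z * y) * x + (y * z) * x := by
              rw [e1, e2]
          _ = β • (z * y) + z * (x * y) - α • (y * z) - y * (x * z) - (z * y) * x
                + (y * z) * x := by
              simp only [add_mul, smul_mul_assoc, mul_assoc]; abel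
          _ = β • (z * y) + z * (α • y + y * x) - α • (y * z) - y * (β • z + z * x)
                - (z * y) * x + (y * z) * x := by rw [e1, e2]
          _ = (β + α) • (z * y - y * z) := by
              simp only [mul_add, mul_smul_comm, mul_assoc, add_smul, smul_sub]; abel
      have hmem : z * y - y * z ∈ h := hlie z hz y hy
      have e3 : dbl z (dbl y p) = dbl (z * y - y * z) p + dbl y (dbl z p) := by
        simp [dbl_apply]
      rw [e3]
      refine N.add_mem ?_ (hNF.2.2 α hα y hy hh _ (hp.2 β hβ z hz hz2))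
      rcases le_or_gt (β + α) 0 with h1 | h1
      · exact hNF.2.2 _ h1 _ hmem hc p hp.1
      · exact hp.2 _ h1 _ hmem hc
  have hNN' : N ≤ N' := sInf_le hN'
  -- the operators preserving `N`
  let p : Submodule ℝ (End ℝ U) :=
    { carrier := {y | ∀ q ∈ N, ((y q.1, y q.2) : U × U) ∈ N}
      zero_mem' := fun q _ => N.zero_mem
      add_mem' := fun {y z} hy hz q hq => by
        have := N.add_mem (hy q hq) (hz q hq)
        simpa using this
      smul_mem' := fun c y hy q hq => by
        have := N.smul_mem c (hy q hq)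
        simpa using this }
  have hp : h ≤ p := by
    refine hG U x h p hx (fun y hy => hlie x hxh y hy) fun α y hy hh q hq => ?_
    rcases le_or_gt α 0 with h1 | h1
    · exact hNF.2.2 α h1 y hy hh q hq
    · exact (hNN' hq).2 α h1 y hy hh
  have hNtop : N = ⊤ := by
    rcases hirr N hNF.2.1 (fun y hy q hq => hp hy q hq) with h1 | h1
    · exact absurd (le_bot_iff.1 (h1 ▸ hNF.1)) hL0
    · exact h1
  exact top_le_iff.1 (hNtop ▸ sInf_le hMF)

end Pool.Agent.V5helper19.DRB
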